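import Mathlib

set_option autoImplicit false
set_option linter.unusedSectionVars false

/-! # Triple systems in which the numbers of triples through two points are `lam`, `lam - 2` or
`lam - 4` -/

namespace Pool.Agent.V8H5.VB

open Finset

/-- a symmetric set of triples of distinct points -/
structure TS (V : Type) where
  T : V → V → V → Bool
  swap : ∀ x y z, T x y z = T y x z
  rot : ∀ x y z, T x y z = T x z y
  irr : ∀ x y, T x x y = false

/-- the number of triples through `x` and `y` -/
def TS.cod {V : Type} [Fintype V] (S : TS V) (x y : V) : ℕ := ∑ z, (S.T x y z).toNat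

/-- the number of triples through two points is `lam`, `lam - 2` or `lam - 4` -/
def Good (V : Type) [Fintype V] (lam : ℕ) : Prop :=
  ∃ S : TS V, ∀ x y : V, x ≠ y → ∃ a ≤ 2, S.cod x y + 2 * a = lam

theorem TS.irr' {V : Type} (S : TS V) (x y : V) : S.T x y y = false := by
  rw [S.swap, S.rot, S.irr]

theorem TS.irr'' {V : Type} (S : TS V) (x y : V) : S.T x y x = false := by
  rw [S.rot, S.irr]

/-- transport along a bijection -/
theorem Good.congr {V W : Type} [Fintype V] [Fintype W] {lam : ℕ} (e : V ≃ W)
    (h : Good V lam) : Good W lam := by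
  obtain ⟨S, hS⟩ := h
  refine ⟨⟨fun x y z => S.T (e.symm x) (e.symm y) (e.symm z), fun x y z => S.swap _ _ _,
    fun x y z => S.rot _ _ _, fun x y => S.irr _ _⟩, fun x y hxy => ?_⟩
  obtain ⟨a, ha, h1⟩ := hS (e.symm x) (e.symm y) (fun h => hxy (e.symm.injective h))
  refine ⟨a, ha, ?_⟩
  rw [← h1]
  congr 1
  unfold TS.cod
  exact Equiv.sum_comp e.symm (fun z => (S.T (e.symm x) (e.symm y) z).toNat)

theorem Good.of_card {V W : Type} [Fintype V] [Fintype W] {lam : ℕ}
    (h : Good V lam) (hc : Fintype.card V = Fintype.card W) : Good W lam :=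
  h.congr (Fintype.equivOfCardEq hc)

/-- no triples -/
theorem good_empty (V : Type) [Fintype V] {lam : ℕ} (h : lam = 0 ∨ lam = 2 ∨ lam = 4) :
    Good V lam := by
  refine ⟨⟨fun _ _ _ => false, fun _ _ _ => rfl, fun _ _ _ => rfl, fun _ _ => rfl⟩,
    fun x y _ => ?_⟩
  simp only [TS.cod, Bool.toNat_false, sum_const_zero, zero_add]
  rcases h with rfl | rfl | rfl
  · exact ⟨0, by omega, rfl⟩
  · exact ⟨1, by omega, rfl⟩
  · exact ⟨2, by omega, rfl⟩

section Compl

variable {V : Type} [Fintype V] [DecidableEq V]

/-- the complementary set of triples -/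
def TS.compl (S : TS V) : TS V where
  T x y z := decide (x ≠ y ∧ y ≠ z ∧ x ≠ z) && !(S.T x y z)
  swap x y z := by
    rw [S.swap x y z]
    congr 1
    apply decide_eq_decide.2
    constructor <;> rintro ⟨h1, h2, h3⟩ <;> exact ⟨h1.symm, h3, h2⟩
  rot x y z := by
    rw [S.rot x y z]
    congr 1
    apply decide_eq_decide.2
    constructor <;> rintro ⟨h1, h2, h3⟩ <;> exact ⟨h3, h2.symm, h1⟩
  irr x y := by simp

theorem TS.cod_compl (S : TS V) {x y : V} (hxy : x ≠ y) :
    S.compl.cod x y + S.cod x y + 2 = Fintype.card V := by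
  have h1 : ∀ z, (S.compl.T x y z).toNat + (S.T x y z).toNat + ((if z = x then 1 else 0) +
      (if z = y then 1 else 0)) = 1 := by
    intro z
    by_cases hx : z = x
    · subst hx
      have h2 : z ≠ y := hxy
      simp [TS.compl, S.irr'', h2]
    · by_cases hy : z = y
      · subst hy
        simp [TS.compl, S.irr', hx]
      · have h3 : y ≠ z := fun h => hy h.symm
        have h4 : x ≠ z := fun h => hx h.symm
        cases hT : S.T x y z <;> simp [TS.compl, hxy, h3, h4, hx, hy, hT]
  have h2 := Finset.sum_congr (rfl : (univ : Finset V) = univ) (fun z _ => h1 z)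
  rw [Finset.sum_add_distrib, Finset.sum_add_distrib, Finset.sum_add_distrib,
    Finset.sum_ite_eq' univ x, Finset.sum_ite_eq' univ y] at h2
  simp only [mem_univ, if_true, sum_const, card_univ, smul_eq_mul, mul_one] at h2
  unfold TS.cod
  omega

theorem TS.cod_le (S : TS V) {x y : V} (hxy : x ≠ y) : S.cod x y + 2 ≤ Fintype.card V := by
  have := S.cod_compl hxy
  omega

/-- the complement -/
theorem Good.compl {lam mu : ℕ} (h : Good V lam) (hs : lam + mu = Fintype.card V + 2) :
    Good V mu := by
  obtain ⟨S, hS⟩ := h
  refine ⟨S.compl, fun x y hxy => ?_⟩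
  obtain ⟨a, ha, h1⟩ := hS x y hxy
  have h2 := S.cod_compl hxy
  exact ⟨2 - a, by omega, by omega⟩

end Compl

section Glue

variable {A : Type} [Fintype A] [DecidableEq A] {n : ℕ} [NeZero n]

/-- the colours of a factorization of the complete graph with `n + 1` vertices, `n` odd -/
def col : Option (ZMod n) → Option (ZMod n) → ZMod n
  | none, none => 0
  | none, some q => q + q
  | some p, none => p + p
  | some p, some q => p + q

theorem col_comm (p q : Option (ZMod n)) : col p q = col q p := by
  cases p <;> cases q <;> simp [col, add_comm]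

theorem two_mul_inj (hn : Odd n) {x y : ZMod n} (h : x + x = y + y) : x = y := by
  have hu : IsUnit ((2 : ℕ) : ZMod n) := by
    rw [ZMod.isUnit_iff_coprime]
    exact Nat.coprime_two_left.2 hn
  have h2 : ((2 : ℕ) : ZMod n) * x = ((2 : ℕ) : ZMod n) * y := by
    push_cast
    rw [two_mul, two_mul, h]
  exact hu.mul_left_cancel h2

/-- every vertex is on exactly one edge of every colour -/
theorem sum_col (hn : Odd n) (f : ZMod n → ℕ) (p : Option (ZMod n)) :
    ∑ q, (if p = q then 0 else f (col p q)) = ∑ j, f j := by
  cases p with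
  | none =>
    rw [Fintype.sum_option]
    simp only [if_true, zero_add]
    have h1 : ∀ q : ZMod n, (if (none : Option (ZMod n)) = some q then 0 else
        f (col none (some q))) = f (q + q) := by
      intro q
      rw [if_neg (by simp)]
      rfl
    rw [Finset.sum_congr rfl (fun q _ => h1 q)]
    have hb : Function.Bijective (fun q : ZMod n => q + q) :=
      Finite.injective_iff_bijective.1 (fun x y h => two_mul_inj hn h)
    exact Function.Bijective.sum_comp hb f
  | some t =>
    rw [Fintype.sum_option, if_neg (by simp)]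
    have h1 : ∀ q : ZMod n, (if (some t : Option (ZMod n)) = some q then 0 else
        f (col (some t) (some q))) + (if q = t then f (t + t) else 0) = f (t + q) := by
      intro q
      by_cases h : q = t
      · subst h
        simp
      · have h' : ¬ (some t : Option (ZMod n)) = some q := by
          intro h2
          exact h (Option.some_injective _ h2).symm
        rw [if_neg h', if_neg h]
        rfl
    have h2 := Finset.sum_congr (rfl : (univ : Finset (ZMod n)) = univ) (fun z _ => h1 z)
    rw [Finset.sum_add_distrib, Finset.sum_ite_eq' univ t] at h2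
    simp only [mem_univ, if_true] at h2
    have h3 : col (some t) (none : Option (ZMod n)) = t + t := rfl
    rw [h3, add_comm, h2]
    exact Equiv.sum_comp (Equiv.addLeft t) f

/-- the triples of the union of `A` and the vertices of the factorization -/
def glueT (S : TS A) (R : A → ZMod n → Bool) : A ⊕ Option (ZMod n) → A ⊕ Option (ZMod n) →
    A ⊕ Option (ZMod n) → Bool
  | .inl x, .inl y, .inl z => S.T x y z
  | .inl _, .inl _, .inr _ => false
  | .inl _, .inr _, .inl _ => false
  | .inr _, .inl _, .inl _ => false
  | .inl x, .inr p, .inr q => decide (p ≠ q) && R x (col p q)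
  | .inr p, .inl x, .inr q => decide (p ≠ q) && R x (col p q)
  | .inr p, .inr q, .inl x => decide (p ≠ q) && R x (col p q)
  | .inr _, .inr _, .inr _ => false

/-- the union -/
def glue (S : TS A) (R : A → ZMod n → Bool) : TS (A ⊕ Option (ZMod n)) where
  T := glueT S R
  swap x y z := by
    rcases x with x | x <;> rcases y with y | y <;> rcases z with z | z <;> simp only [glueT]
    · exact S.swap x y z
    · rw [col_comm x y]
      congr 1
      exact decide_eq_decide.2 ⟨fun h => h.symm, fun h => h.symm⟩
  rot x y z := by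
    rcases x with x | x <;> rcases y with y | y <;> rcases z with z | z <;> simp only [glueT]
    · exact S.rot x y z
    · rw [col_comm y z]
      congr 1
      exact decide_eq_decide.2 ⟨fun h => h.symm, fun h => h.symm⟩
  irr x y := by
    rcases x with x | x <;> rcases y with y | y <;> simp [glueT, S.irr]

theorem good_glue (hn : Odd n) {lam : ℕ} (hA : Good A lam) (R : A → ZMod n → Bool)
    (hR : ∀ x, ∃ a ≤ 2, ∑ j, (R x j).toNat + 2 * a = lam)
    (hC : ∀ j, ∃ a ≤ 2, ∑ x, (R x j).toNat + 2 * a = lam) : Good (A ⊕ Option (ZMod n)) lam := by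
  obtain ⟨S, hS⟩ := hA
  have hAB : ∀ (x : A) (p : Option (ZMod n)),
      ∑ q : Option (ZMod n), (decide (p ≠ q) && R x (col p q)).toNat = ∑ j, (R x j).toNat := by
    intro x p
    rw [← sum_col hn (fun j => (R x j).toNat) p]
    refine Finset.sum_congr rfl fun q _ => ?_
    by_cases h : p = q
    · simp [h]
    · simp [h]
  refine ⟨glue S R, ?_⟩
  rintro (x | p) (y | q) hne
  · obtain ⟨a, ha, h1⟩ := hS x y (fun h => hne (by rw [h]))
    refine ⟨a, ha, ?_⟩
    rw [← h1]
    simp [TS.cod, glue, glueT]
  · obtain ⟨a, ha, h1⟩ := hR x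
    refine ⟨a, ha, ?_⟩
    rw [← h1, ← hAB x q]
    simp only [TS.cod, glue, Fintype.sum_sum_type, glueT]
    simp
  · obtain ⟨a, ha, h1⟩ := hR y
    refine ⟨a, ha, ?_⟩
    rw [← h1, ← hAB y p]
    simp only [TS.cod, glue, Fintype.sum_sum_type, glueT]
    simp
  · have hpq : p ≠ q := fun h => hne (by rw [h])
    obtain ⟨a, ha, h1⟩ := hC (col p q)
    refine ⟨a, ha, ?_⟩
    rw [← h1]
    simp only [TS.cod, glue, Fintype.sum_sum_type, glueT]
    simp [hpq]

end Glue

end Pool.Agent.V8H5.VB
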