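import Pool.Agent.V8H5.VB.Rel

set_option autoImplicit false
set_option linter.unusedSectionVars false

/-! # Existence for all parameters except `1` and `v + 1` -/

namespace Pool.Agent.V8H5.VB

open Finset

/-- the numbers in a column -/
theorem column_even {n m s c σ : ℕ} (hs : s = 2 * σ) (hm : n + 1 = 2 * m ∨ n = 2 * m + 1)
    (hsn : s ≤ n) (h0 : 0 < n) (h1 : n * c < s * m + n) (h2 : s * m < n * c + n) :
    ∃ a ≤ 2, (c + c) + 2 * a = s + 2 := by
  have h3 : s * m = σ * (2 * m) := by rw [hs]; ring
  rw [h3] at h1 h2
  have hc1 : c ≤ σ + 1 := by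
    by_contra hcon
    have h4 : σ + 2 ≤ c := by omega
    have h5 : n * (σ + 2) ≤ n * c := Nat.mul_le_mul_left _ h4
    rcases hm with h | h
    · rw [← h] at h1
      nlinarith
    · have h6 : 2 * m ≤ n := by omega
      have h7 : σ * (2 * m) ≤ σ * n := Nat.mul_le_mul_left _ h6
      nlinarith
  have hc2 : σ ≤ c + 1 := by
    by_contra hcon
    have h4 : c + 2 ≤ σ := by omega
    have h5 : n * (c + 2) ≤ n * σ := Nat.mul_le_mul_left _ h4
    rcases hm with h | h
    · rw [← h] at h2
      nlinarith
    · have h6 : σ * n = σ * (2 * m) + σ := by rw [h]; ring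
      nlinarith
  exact ⟨σ + 1 - c, by omega, by omega⟩

theorem sum_fin {m : ℕ} (f : ℕ → ℕ) : ∑ i : Fin m, f i.val = ∑ i ∈ range m, f i :=
  (Finset.sum_range f).symm

/-- the step for even `v` -/
theorem step_even {n m lam : ℕ} (hm : n + 1 = 2 * m ∨ n = 2 * m + 1) (h0 : 0 < n)
    (hlam : Even lam) (h2 : 2 ≤ lam) (hle : lam ≤ n + 2) (hA : Good (Fin (2 * m)) lam) :
    Good (Fin (2 * m + (n + 1))) lam := by
  have : NeZero n := ⟨h0.ne'⟩
  have hn : Odd n := by
    rcases hm with h | h
    · exact ⟨m - 1, by omega⟩
    · exact ⟨m, h⟩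
  obtain ⟨τ, hτ⟩ := hlam
  have hA' : Good (Fin m ⊕ Fin m) lam := hA.of_card (by simp; omega)
  have key := good_glue (n := n) hn hA'
    (fun x j => decide ((j - (((lam - 2) * (Sum.elim (fun i : Fin m => i.val)
      (fun i : Fin m => i.val) x) : ℕ) : ZMod n)).val < lam - 2)) ?_ ?_
  · exact key.of_card (by simp [ZMod.card]; omega)
  · intro x
    refine ⟨1, by omega, ?_⟩
    rw [sum_row (by omega)]
    omega
  · intro j
    rw [Fintype.sum_sum_type]
    have hc : ∑ i : Fin m, (decide ((j - (((lam - 2) * i.val : ℕ) : ZMod n)).val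
        < lam - 2)).toNat = ∑ x ∈ range ((lam - 2) * m), (decide ((x : ZMod n) = j)).toNat := by
      rw [sum_fin (fun i => (decide ((j - (((lam - 2) * i : ℕ) : ZMod n)).val
        < lam - 2)).toNat), sum_intervals (by omega)]
    change ∃ a ≤ 2, (∑ i : Fin m, (decide ((j - (((lam - 2) * i.val : ℕ) : ZMod n)).val
        < lam - 2)).toNat) + (∑ i : Fin m, (decide ((j - (((lam - 2) * i.val : ℕ) : ZMod n)).val
        < lam - 2)).toNat) + 2 * a = lam
    rw [hc]
    obtain ⟨b1, b2⟩ := count_bounds j ((lam - 2) * m)
    obtain ⟨a, ha, h3⟩ := column_even (σ := τ - 1) (by omega) hm (by omega) h0 b1 b2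
    exact ⟨a, ha, by omega⟩

theorem good_even : ∀ v : ℕ, Even v → ∀ lam : ℕ, Even lam → lam ≤ v + 2 → Good (Fin v) lam := by
  intro v
  induction v using Nat.strong_induction_on with
  | _ v ih =>
    intro hv lam hlam hle
    -- the smaller half
    have half : ∀ lam : ℕ, Even lam → 2 * lam ≤ v + 2 → Good (Fin v) lam := by
      intro lam hlam hle
      by_cases h0 : lam = 0 ∨ lam = 2
      · exact good_empty _ (by omega)
      · obtain ⟨τ, hτ⟩ := hlam
        obtain ⟨w, hw⟩ := hv
        rcases Nat.even_or_odd w with ⟨m, hm⟩ | ⟨m, hm⟩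
        · -- `v = 4 m`
          have h1 := step_even (n := 2 * m - 1) (m := m) (lam := lam) (by omega) (by omega)
            ⟨τ, hτ⟩ (by omega) (by omega) (ih (2 * m) (by omega) ⟨m, by omega⟩ lam ⟨τ, hτ⟩ (by omega))
          exact h1.of_card (by simp; omega)
        · have h1 := step_even (n := 2 * m + 1) (m := m) (lam := lam) (by omega) (by omega)
            ⟨τ, hτ⟩ (by omega) (by omega) (ih (2 * m) (by omega) ⟨m, by omega⟩ lam ⟨τ, hτ⟩ (by omega))
          exact h1.of_card (by simp; omega)
    by_cases hh : 2 * lam ≤ v + 2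
    · exact half lam hlam hh
    · have h1 := half (v + 2 - lam) (by
        rw [Nat.even_sub hle]
        simp [hlam, hv, Nat.even_add]) (by omega)
      exact h1.compl (by simp; omega)

theorem good_odd : ∀ v : ℕ, Odd v → ∀ lam : ℕ, 2 ≤ lam → lam ≤ v → Good (Fin v) lam := by
  intro v
  induction v using Nat.strong_induction_on with
  | _ v ih =>
    intro hv lam h2 hle
    have half : ∀ lam : ℕ, 2 ≤ lam → lam ≤ v → 2 * lam ≤ v + 2 → Good (Fin v) lam := by
      intro lam h2 hle' hle
      obtain ⟨w, hw⟩ := hv
      rcases Nat.even_or_odd w with ⟨m, hm⟩ | ⟨m, hm⟩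
      · -- `v = 4 m + 1`
        have hm1 : 1 ≤ m := by omega
        have : NeZero (2 * m - 1) := ⟨by omega⟩
        have hn : Odd (2 * m - 1) := ⟨m - 1, by omega⟩
        have hA : Good (ZMod (2 * m - 1) ⊕ Bool) lam :=
          (ih (2 * m + 1) (by omega) ⟨m, rfl⟩ lam h2 (by omega)).of_card (by
            simp [ZMod.card]; omega)
        have key := good_glue (n := 2 * m - 1) hn hA
          (fun x j => Sum.elim (fun y : ZMod (2 * m - 1) => decide ((j - y).val < lam - 2))
            (fun _ : Bool => decide (j.val < lam - 2)) x) ?_ ?_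
        · exact key.of_card (by simp [ZMod.card]; omega)
        · rintro (x | x)
          · refine ⟨1, by omega, ?_⟩
            simp only [Sum.elim_inl]
            rw [sum_row (by omega)]
            omega
          · refine ⟨1, by omega, ?_⟩
            simp only [Sum.elim_inr]
            rw [sum_val_lt (by omega)]
            omega
        · intro j
          rw [Fintype.sum_sum_type]
          simp only [Sum.elim_inl, Sum.elim_inr]
          rw [sum_column (by omega)]
          by_cases hj : j.val < lam - 2
          · refine ⟨0, by omega, ?_⟩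
            simp [hj]
            omega
          · refine ⟨1, by omega, ?_⟩
            simp [hj]
            omega
      · -- `v = 4 m + 3`
        have : NeZero (2 * m + 1) := ⟨by omega⟩
        have hn : Odd (2 * m + 1) := ⟨m, rfl⟩
        rcases Nat.lt_or_ge lam (2 * m + 2) with h | h
        · have hA : Good (ZMod (2 * m + 1)) lam :=
            (ih (2 * m + 1) (by omega) ⟨m, rfl⟩ lam h2 (by omega)).of_card (by
              simp [ZMod.card])
          have key := good_glue (n := 2 * m + 1) hn hA
            (fun x j => decide ((j - x).val < lam - 2)) ?_ ?_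
          · exact key.of_card (by simp [ZMod.card]; omega)
          · intro x
            refine ⟨1, by omega, ?_⟩
            rw [sum_row (by omega)]
            omega
          · intro j
            refine ⟨1, by omega, ?_⟩
            rw [sum_column (by omega)]
            omega
        · have hl : lam = 2 * m + 2 := by omega
          have hA : Good (ZMod (2 * m + 1)) (2 * m + 3) :=
            (good_empty (ZMod (2 * m + 1)) (lam := 0) (Or.inl rfl)).compl (by
              simp [ZMod.card])
          have key := good_glue (n := 2 * m + 1) hn hA (fun _ _ => true) ?_ ?_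
          · have h1 : Good (Fin v) (2 * m + 3) := key.of_card (by simp [ZMod.card]; omega)
            exact h1.compl (by simp; omega)
          · intro x
            refine ⟨1, by omega, ?_⟩
            simp [ZMod.card]
          · intro j
            refine ⟨1, by omega, ?_⟩
            simp [ZMod.card]
    by_cases hh : 2 * lam ≤ v + 2
    · exact half lam h2 hle hh
    · have h1 := half (v + 2 - lam) (by omega) (by omega) (by omega)
      exact h1.compl (by simp; omega)

end Pool.Agent.V8H5.VB
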