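import Pool.Agent.V8H5.VB.STS
import Pool.Agent.V8H5.VB.Exist

set_option autoImplicit false
set_option linter.unusedSectionVars false

/-! # Variance-balanced designs with block size 3 without repeated blocks -/

namespace Pool.Agent.V8H5.VB

open Finset

/-- `𝓑` is the set of blocks of a variance-balanced design `VB(v, 3, lam)` without repeated blocks:
the blocks are different multisets of three points, not all equal, and all the concurrences of
two distinct points are `lam` -/
def IsVB (v lam : ℕ) (𝓑 : Finset (Multiset (Fin v))) : Prop :=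
  (∀ B ∈ 𝓑, Multiset.card B = 3 ∧ ∀ a : Fin v, B ≠ {a, a, a}) ∧
    ∀ i j : Fin v, i ≠ j → ∑ B ∈ 𝓑, B.count i * B.count j = lam

/-- the number of pairs (first, second) in a block -/
theorem count_block {v : ℕ} {i j : Fin v} (hij : i ≠ j) (B : Multiset (Fin v))
    (hB : Multiset.card B = 3) : B.count i * B.count j =
      ∑ z, if B = i ::ₘ j ::ₘ {z} then (if z = i ∨ z = j then 2 else 1) else 0 := by
  by_cases hi : i ∈ B
  · by_cases hj : j ∈ B
    · obtain ⟨B1, rfl⟩ := Multiset.exists_cons_of_mem hi
      have hj1 : j ∈ B1 := by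
        rcases Multiset.mem_cons.1 hj with h | h
        · exact absurd h.symm hij
        · exact h
      obtain ⟨B2, rfl⟩ := Multiset.exists_cons_of_mem hj1
      have h2 : Multiset.card B2 = 1 := by simpa using hB
      obtain ⟨w, rfl⟩ := Multiset.card_eq_one.1 h2
      have h3 : ∀ z, (i ::ₘ j ::ₘ {w} = i ::ₘ j ::ₘ ({z} : Multiset (Fin v))) ↔ z = w := by
        intro z
        rw [Multiset.cons_inj_right, Multiset.cons_inj_right, Multiset.singleton_inj]
        exact eq_comm
      simp only [h3]
      rw [Finset.sum_ite_eq' univ w]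
      simp only [mem_univ, if_true]
      have hji : j ≠ i := fun h => hij h.symm
      by_cases hwi : w = i
      · subst hwi
        simp [hij, hji]
      · by_cases hwj : w = j
        · subst hwj
          have h6 : Multiset.count w (i ::ₘ w ::ₘ {w}) = 2 := by
            rw [Multiset.count_cons_of_ne hji]
            simp
          rw [h6]
          simp [hij]
        · have h4 : i ≠ w := fun h => hwi h.symm
          have h5 : j ≠ w := fun h => hwj h.symm
          simp [hij, hji, hwi, hwj, h4, h5]
    · rw [Multiset.count_eq_zero.2 hj, mul_zero]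
      symm
      apply Finset.sum_eq_zero
      intro z _
      rw [if_neg]
      rintro rfl
      exact hj (by simp)
  · rw [Multiset.count_eq_zero.2 hi, zero_mul]
    symm
    apply Finset.sum_eq_zero
    intro z _
    rw [if_neg]
    rintro rfl
    exact hi (by simp)

/-- the concurrence as a sum over the third point -/
theorem concurrence {v : ℕ} {i j : Fin v} (hij : i ≠ j) (𝓑 : Finset (Multiset (Fin v)))
    (hB : ∀ B ∈ 𝓑, Multiset.card B = 3) : ∑ B ∈ 𝓑, B.count i * B.count j =
      ∑ z, if i ::ₘ j ::ₘ {z} ∈ 𝓑 then (if z = i ∨ z = j then 2 else 1) else 0 := by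
  rw [Finset.sum_congr rfl (fun B hBm => count_block hij B (hB B hBm)), Finset.sum_comm]
  refine Finset.sum_congr rfl fun z _ => ?_
  rw [Finset.sum_ite_eq' 𝓑 (i ::ₘ j ::ₘ {z})]

/-- the triples of a design -/
def toTS {v : ℕ} (𝓑 : Finset (Multiset (Fin v))) : TS (Fin v) where
  T x y z := decide (x ≠ y ∧ y ≠ z ∧ x ≠ z) && decide (x ::ₘ y ::ₘ {z} ∈ 𝓑)
  swap x y z := by
    rw [Multiset.cons_swap x y {z}]
    congr 1
    apply decide_eq_decide.2
    constructor <;> rintro ⟨h1, h2, h3⟩ <;> exact ⟨h1.symm, h3, h2⟩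
  rot x y z := by
    have h : x ::ₘ y ::ₘ ({z} : Multiset (Fin v)) = x ::ₘ z ::ₘ {y} := by
      rw [Multiset.cons_inj_right]
      exact Multiset.cons_swap y z 0
    rw [h]
    congr 1
    apply decide_eq_decide.2
    constructor <;> rintro ⟨h1, h2, h3⟩ <;> exact ⟨h3, h2.symm, h1⟩
  irr x y := by simp

/-- the concurrences in terms of the triples -/
theorem concurrence_eq {v : ℕ} {i j : Fin v} (hij : i ≠ j) (𝓑 : Finset (Multiset (Fin v)))
    (hB : ∀ B ∈ 𝓑, Multiset.card B = 3) : ∑ B ∈ 𝓑, B.count i * B.count j =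
      (toTS 𝓑).cod i j + 2 * ((if i ::ₘ j ::ₘ {i} ∈ 𝓑 then 1 else 0) +
        (if i ::ₘ j ::ₘ {j} ∈ 𝓑 then 1 else 0)) := by
  rw [concurrence hij 𝓑 hB]
  have h1 : ∀ z, (if i ::ₘ j ::ₘ {z} ∈ 𝓑 then (if z = i ∨ z = j then 2 else 1) else 0) =
      ((toTS 𝓑).T i j z).toNat + ((if z = i then (2 * if i ::ₘ j ::ₘ {i} ∈ 𝓑 then 1 else 0)
        else 0) + (if z = j then (2 * if i ::ₘ j ::ₘ {j} ∈ 𝓑 then 1 else 0) else 0)) := by
    intro z
    by_cases hzi : z = i
    · subst hzi
      have h2 : (toTS 𝓑).T z j z = false := TS.irr'' _ _ _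
      rw [h2]
      by_cases hm : z ::ₘ j ::ₘ {z} ∈ 𝓑 <;> simp [hm, hij]
    · by_cases hzj : z = j
      · subst hzj
        have h2 : (toTS 𝓑).T i z z = false := TS.irr' _ _ _
        rw [h2]
        by_cases hm : i ::ₘ z ::ₘ {z} ∈ 𝓑 <;> simp [hm, hzi]
      · have h2 : i ≠ z := fun h => hzi h.symm
        have h3 : j ≠ z := fun h => hzj h.symm
        by_cases hm : i ::ₘ j ::ₘ {z} ∈ 𝓑 <;> simp [toTS, hm, hij, h2, h3, hzi, hzj]
  rw [Finset.sum_congr rfl (fun z _ => h1 z), Finset.sum_add_distrib, Finset.sum_add_distrib,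
    Finset.sum_ite_eq' univ i, Finset.sum_ite_eq' univ j]
  simp only [mem_univ, if_true, TS.cod]
  ring

/-- a design gives a set of triples -/
theorem good_of_vb {v lam : ℕ} {𝓑 : Finset (Multiset (Fin v))} (h : IsVB v lam 𝓑) :
    Good (Fin v) lam := by
  refine ⟨toTS 𝓑, fun i j hij => ?_⟩
  have h1 := concurrence_eq hij 𝓑 (fun B hB => (h.1 B hB).1)
  rw [h.2 i j hij] at h1
  refine ⟨(if i ::ₘ j ::ₘ {i} ∈ 𝓑 then 1 else 0) + (if i ::ₘ j ::ₘ {j} ∈ 𝓑 then 1 else 0), ?_,
    h1.symm⟩
  split_ifs <;> omega

/-- a set of triples gives a design -/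
theorem vb_of_good {v lam : ℕ} (h : Good (Fin v) lam) :
    ∃ 𝓑 : Finset (Multiset (Fin v)), IsVB v lam 𝓑 := by
  obtain ⟨S, hS⟩ := h
  -- the blocks with a double point
  let ar : Fin v → Fin v → Prop := fun x y => (x < y ∧ S.cod x y + 2 ≤ lam) ∨
    (y < x ∧ S.cod x y + 4 ≤ lam)
  classical
  let tri : Finset (Multiset (Fin v)) := ((univ : Finset (Fin v × Fin v × Fin v)).filter
    (fun t => S.T t.1 t.2.1 t.2.2 = true)).image (fun t => t.1 ::ₘ t.2.1 ::ₘ {t.2.2})
  let dou : Finset (Multiset (Fin v)) := ((univ : Finset (Fin v × Fin v)).filter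
    (fun t => ar t.1 t.2)).image (fun t => t.1 ::ₘ t.1 ::ₘ {t.2})
  have hirr : ∀ x y z, S.T x y z = true → x ≠ y ∧ y ≠ z ∧ x ≠ z := by
    intro x y z hT
    refine ⟨?_, ?_, ?_⟩
    · rintro rfl
      rw [S.irr] at hT
      exact absurd hT (by simp)
    · rintro rfl
      rw [S.irr'] at hT
      exact absurd hT (by simp)
    · rintro rfl
      rw [S.irr''] at hT
      exact absurd hT (by simp)
  have hcard : ∀ B ∈ tri ∪ dou, Multiset.card B = 3 := by
    intro B hB
    rw [mem_union, mem_image, mem_image] at hB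
    rcases hB with ⟨t, -, rfl⟩ | ⟨t, -, rfl⟩ <;> simp
  have hcodc : ∀ x y, S.cod x y = S.cod y x := by
    intro x y
    unfold TS.cod
    exact Finset.sum_congr rfl fun z _ => by rw [S.swap]
  have htri : ∀ x y z, x ≠ y → y ≠ z → x ≠ z →
      (x ::ₘ y ::ₘ {z} ∈ tri ∪ dou ↔ S.T x y z = true) := by
    intro x y z hxy hyz hxz
    rw [mem_union, mem_image, mem_image]
    constructor
    · rintro (⟨⟨a, b, c⟩, hT, he⟩ | ⟨⟨a, b⟩, hT, he⟩)
      · simp only [mem_filter, mem_univ, true_and] at hT
        simp only at he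
        have hx : x ∈ a ::ₘ b ::ₘ ({c} : Multiset (Fin v)) := by rw [he]; simp
        have hy : y ∈ a ::ₘ b ::ₘ ({c} : Multiset (Fin v)) := by rw [he]; simp
        have hz : z ∈ a ::ₘ b ::ₘ ({c} : Multiset (Fin v)) := by rw [he]; simp
        simp only [Multiset.mem_cons, Multiset.mem_singleton] at hx hy hz
        have e1 := S.swap a b c
        have e2 := S.rot a b c
        have e3 := S.swap a c b
        have e4 := S.rot b a c
        have e5 := S.rot c a b
        rcases hx with rfl | rfl | rfl <;> rcases hy with rfl | rfl | rfl <;>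
          rcases hz with rfl | rfl | rfl <;>
          first
          | exact absurd rfl hxy
          | exact absurd rfl hyz
          | exact absurd rfl hxz
          | exact hT
          | (rw [← e1]; exact hT)
          | (rw [← e2]; exact hT)
          | (rw [← e3, ← e2]; exact hT)
          | (rw [← e4, ← e1]; exact hT)
          | (rw [← e5, ← e3, ← e2]; exact hT)
      · exfalso
        simp only at he
        have hx : x ∈ a ::ₘ a ::ₘ ({b} : Multiset (Fin v)) := by rw [he]; simp
        have hy : y ∈ a ::ₘ a ::ₘ ({b} : Multiset (Fin v)) := by rw [he]; simp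
        have hz : z ∈ a ::ₘ a ::ₘ ({b} : Multiset (Fin v)) := by rw [he]; simp
        simp only [Multiset.mem_cons, Multiset.mem_singleton] at hx hy hz
        have hx' : x = a ∨ x = b := by tauto
        have hy' : y = a ∨ y = b := by tauto
        have hz' : z = a ∨ z = b := by tauto
        rcases hx' with rfl | rfl <;> rcases hy' with rfl | rfl <;> rcases hz' with rfl | rfl <;>
          first
          | exact absurd rfl hxy
          | exact absurd rfl hyz
          | exact absurd rfl hxz
    · intro hT
      left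
      exact ⟨(x, y, z), by simp [hT], rfl⟩
  have hdou : ∀ x y, x ≠ y → (x ::ₘ x ::ₘ {y} ∈ tri ∪ dou ↔ ar x y) := by
    intro x y hxy
    rw [mem_union, mem_image, mem_image]
    constructor
    · rintro (⟨⟨a, b, c⟩, hT, he⟩ | ⟨⟨a, b⟩, hT, he⟩)
      · exfalso
        simp only [mem_filter, mem_univ, true_and] at hT
        obtain ⟨n1, n2, n3⟩ := hirr a b c hT
        simp only at he
        have ha : a ∈ x ::ₘ x ::ₘ ({y} : Multiset (Fin v)) := by rw [← he]; simp
        have hb : b ∈ x ::ₘ x ::ₘ ({y} : Multiset (Fin v)) := by rw [← he]; simp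
        have hc : c ∈ x ::ₘ x ::ₘ ({y} : Multiset (Fin v)) := by rw [← he]; simp
        simp only [Multiset.mem_cons, Multiset.mem_singleton] at ha hb hc
        have ha' : a = x ∨ a = y := by tauto
        have hb' : b = x ∨ b = y := by tauto
        have hc' : c = x ∨ c = y := by tauto
        rcases ha' with rfl | rfl <;> rcases hb' with rfl | rfl <;> rcases hc' with rfl | rfl <;>
          first
          | exact absurd rfl n1
          | exact absurd rfl n2
          | exact absurd rfl n3
      · simp only [mem_filter, mem_univ, true_and] at hT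
        simp only at he
        have hab : a ≠ b := by
          rcases hT with ⟨h, -⟩ | ⟨h, -⟩
          · exact ne_of_lt h
          · exact (ne_of_lt h).symm
        have h1 : (a ::ₘ a ::ₘ ({b} : Multiset (Fin v))).count x = 2 := by
          rw [he]
          simp [hxy]
        have hxa : x = a := by
          by_contra hne
          by_cases hxb : x = b
          · subst hxb
            simp [hne] at h1
          · simp [hne, hxb] at h1
        subst hxa
        rw [Multiset.cons_inj_right, Multiset.cons_inj_right, Multiset.singleton_inj] at he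
        rw [← he]
        exact hT
    · intro hA
      right
      refine ⟨(x, y), ?_, rfl⟩
      rw [mem_filter]
      exact ⟨mem_univ _, hA⟩
  refine ⟨tri ∪ dou, ⟨fun B hB => ⟨hcard B hB, ?_⟩, fun i j hij => ?_⟩⟩
  · intro a hBa
    rw [mem_union, mem_image, mem_image] at hB
    have hall : ∀ w ∈ B, w = a := by
      intro w hw
      rw [hBa] at hw
      simpa using hw
    rcases hB with ⟨⟨x, y, z⟩, hT, he⟩ | ⟨⟨x, y⟩, hT, he⟩
    · simp only [mem_filter, mem_univ, true_and] at hT
      obtain ⟨n1, -, -⟩ := hirr x y z hT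
      have h1 := hall x (by rw [← he]; simp)
      have h2 := hall y (by rw [← he]; simp)
      exact n1 (h1.trans h2.symm)
    · simp only [mem_filter, mem_univ, true_and] at hT
      have h1 := hall x (by rw [← he]; simp)
      have h2 := hall y (by rw [← he]; simp)
      rcases hT with ⟨h, -⟩ | ⟨h, -⟩
      · exact absurd (h1.trans h2.symm) (ne_of_lt h)
      · exact absurd (h2.trans h1.symm) (ne_of_lt h)
  · rw [concurrence_eq hij _ hcard]
    have h1 : (toTS (tri ∪ dou)).cod i j = S.cod i j := by
      unfold TS.cod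
      refine Finset.sum_congr rfl fun z _ => ?_
      congr 1
      by_cases hz : j ≠ z ∧ i ≠ z
      · have h2 := htri i j z hij hz.1 hz.2
        simp only [toTS]
        rw [Bool.eq_iff_iff]
        simp only [Bool.and_eq_true, decide_eq_true_eq]
        rw [h2]
        constructor
        · rintro ⟨-, h⟩
          exact h
        · intro h
          exact ⟨⟨hij, hz.1, hz.2⟩, h⟩
      · have h2 : S.T i j z = false := by
          rw [← Bool.not_eq_true]
          intro h
          obtain ⟨-, h3, h4⟩ := hirr i j z h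
          exact hz ⟨h3, h4⟩
        rw [h2]
        simp only [toTS]
        rw [← Bool.not_eq_true]
        simp only [Bool.and_eq_true, decide_eq_true_eq]
        rintro ⟨⟨-, h3, h4⟩, -⟩
        exact hz ⟨h3, h4⟩
    have hsw1 : i ::ₘ j ::ₘ ({i} : Multiset (Fin v)) = i ::ₘ i ::ₘ {j} := by
      rw [Multiset.cons_inj_right]
      exact Multiset.cons_swap j i 0
    have hsw2 : i ::ₘ j ::ₘ ({j} : Multiset (Fin v)) = j ::ₘ j ::ₘ {i} := by
      rw [Multiset.cons_swap i j, Multiset.cons_inj_right]
      exact Multiset.cons_swap i j 0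
    have h2 := hdou i j hij
    have h3 := hdou j i (fun h => hij h.symm)
    rw [← hsw1] at h2
    rw [← hsw2] at h3
    obtain ⟨a, ha, h4⟩ := hS i j hij
    rw [h1]
    simp only [ar] at h2 h3
    rw [hcodc j i] at h3
    rcases lt_or_gt_of_ne hij with hlt | hlt
    · have g1 : ¬ (j < i) := not_lt.2 hlt.le
      simp only [hlt, g1, true_and, false_and, or_false, false_or] at h2 h3
      by_cases c1 : S.cod i j + 2 ≤ lam
      · rw [if_pos (h2.2 c1)]
        by_cases c2 : S.cod i j + 4 ≤ lam
        · rw [if_pos (h3.2 c2)]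
          omega
        · rw [if_neg (fun h => c2 (h3.1 h))]
          omega
      · rw [if_neg (fun h => c1 (h2.1 h)), if_neg (fun h => by have := h3.1 h; omega)]
        omega
    · have g1 : ¬ (i < j) := not_lt.2 (le_of_lt hlt)
      have g2 : j < i := hlt
      simp only [g2, g1, true_and, false_and, or_false, false_or] at h2 h3
      by_cases c1 : S.cod i j + 2 ≤ lam
      · rw [if_pos (h3.2 c1)]
        by_cases c2 : S.cod i j + 4 ≤ lam
        · rw [if_pos (h2.2 c2)]
          omega
        · rw [if_neg (fun h => c2 (h2.1 h))]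
          omega
      · rw [if_neg (fun h => c1 (h3.1 h)), if_neg (fun h => by have := h2.1 h; omega)]
        omega

end Pool.Agent.V8H5.VB
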