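import Pool.Agent.V8H5.VB.Main

set_option autoImplicit false
set_option linter.unusedSectionVars false

/-! # Necessary conditions -/

namespace Pool.Agent.V8H5.VB

open Finset

variable {V : Type} [Fintype V] [DecidableEq V]

theorem TS.cod_self (S : TS V) (x : V) : S.cod x x = 0 := by
  unfold TS.cod
  apply Finset.sum_eq_zero
  intro z _
  rw [S.irr]
  rfl

/-- the numbers of triples through the pairs with a given point have an even sum -/
theorem TS.even_sum (S : TS V) (x : V) : Even (∑ y, S.cod x y) := by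
  classical
  let G : SimpleGraph V :=
    { Adj := fun y z => S.T x y z = true
      symm := ⟨fun y z h => by rw [S.rot]; exact h⟩
      loopless := ⟨fun y h => by rw [S.irr'] at h; exact absurd h (by simp)⟩ }
  have h1 := G.sum_degrees_eq_twice_card_edges
  have h2 : ∀ y, G.degree y = S.cod x y := by
    intro y
    rw [← SimpleGraph.card_neighborFinset_eq_degree, SimpleGraph.neighborFinset_eq_filter,
      Finset.card_filter]
    unfold TS.cod
    refine Finset.sum_congr rfl fun z _ => ?_
    show (if S.T x y z = true then 1 else 0) = _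
    cases S.T x y z <;> simp
  rw [Finset.sum_congr rfl (fun y _ => h2 y)] at h1
  rw [h1]
  exact even_two_mul _

theorem Good.parity {lam : ℕ} (h : Good V lam) (hV : 0 < Fintype.card V) :
    Even (lam * (Fintype.card V - 1)) := by
  obtain ⟨S, hS⟩ := h
  obtain ⟨x⟩ := Fintype.card_pos_iff.1 hV
  choose a ha using hS
  have h1 : ∀ y, (if y = x then lam else 0) + S.cod x y +
      2 * (if h : x ≠ y then a x y h else 0) = lam := by
    intro y
    by_cases hy : y = x
    · subst hy
      rw [if_pos rfl, S.cod_self]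
      simp
    · have hy' : x ≠ y := fun h => hy h.symm
      rw [if_neg hy, dif_pos hy', zero_add]
      exact (ha x y hy').2
  have h2 := Finset.sum_congr (rfl : (univ : Finset V) = univ) (fun y _ => h1 y)
  rw [Finset.sum_add_distrib, Finset.sum_add_distrib, Finset.sum_ite_eq' univ x,
    ← Finset.mul_sum] at h2
  simp only [mem_univ, if_true, sum_const, card_univ, smul_eq_mul] at h2
  obtain ⟨c, hc⟩ := S.even_sum x
  rw [hc] at h2
  have h3 : lam * (Fintype.card V - 1) + lam = Fintype.card V * lam := by
    obtain ⟨w, hw⟩ : ∃ w, Fintype.card V = w + 1 := ⟨Fintype.card V - 1, by omega⟩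
    rw [hw, Nat.add_sub_cancel]
    ring
  rw [Nat.even_iff]
  omega

theorem Good.le {lam : ℕ} (h : Good V lam) (hV : 2 ≤ Fintype.card V) :
    lam ≤ Fintype.card V + 2 := by
  obtain ⟨S, hS⟩ := h
  obtain ⟨x, y, hxy⟩ := Fintype.exists_pair_of_one_lt_card (show 1 < Fintype.card V by omega)
  obtain ⟨a, ha, h1⟩ := hS x y hxy
  have h2 := S.cod_le hxy
  omega

/-- the number of ordered triples is a multiple of three -/
theorem TS.three_dvd {v : ℕ} (S : TS (Fin v)) :
    3 ∣ ∑ x, ∑ y, ∑ z, (S.T x y z).toNat := by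
  have h1 : ∀ x y z, (S.T x y z).toNat = (if x < y ∧ x < z then (S.T x y z).toNat else 0) +
      (if y < x ∧ y < z then (S.T x y z).toNat else 0) +
      (if z < x ∧ z < y then (S.T x y z).toNat else 0) := by
    intro x y z
    cases hT : S.T x y z
    · simp
    · have n1 : x ≠ y := by
        rintro rfl
        rw [S.irr] at hT
        exact absurd hT (by simp)
      have n2 : y ≠ z := by
        rintro rfl
        rw [S.irr'] at hT
        exact absurd hT (by simp)
      have n3 : x ≠ z := by
        rintro rfl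
        rw [S.irr''] at hT
        exact absurd hT (by simp)
      rcases lt_or_gt_of_ne n1 with a1 | a1 <;> rcases lt_or_gt_of_ne n2 with a2 | a2 <;>
        rcases lt_or_gt_of_ne n3 with a3 | a3 <;>
        simp [a1, a2, a3, not_lt.2 (le_of_lt a1), not_lt.2 (le_of_lt a2), not_lt.2 (le_of_lt a3)]
      · exact absurd (a1.trans a2) (not_lt.2 (le_of_lt a3))
      · exact absurd (lt_trans a2 a1) (not_lt.2 (le_of_lt a3))
  set N := ∑ x, ∑ y, ∑ z, (if x < y ∧ x < z then (S.T x y z).toNat else 0) with hN
  have h2 : ∑ x, ∑ y, ∑ z, (if y < x ∧ y < z then (S.T x y z).toNat else 0) = N := by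
    rw [Finset.sum_comm, hN]
    refine Finset.sum_congr rfl fun x _ => Finset.sum_congr rfl fun y _ =>
      Finset.sum_congr rfl fun z _ => ?_
    rw [S.swap]
  have h3 : ∑ x, ∑ y, ∑ z, (if z < x ∧ z < y then (S.T x y z).toNat else 0) = N := by
    have h4 : ∀ x : Fin v, ∑ y, ∑ z, (if z < x ∧ z < y then (S.T x y z).toNat else 0) =
        ∑ z, ∑ y, (if z < x ∧ z < y then (S.T x y z).toNat else 0) := fun x => Finset.sum_comm
    rw [Finset.sum_congr rfl (fun x _ => h4 x), Finset.sum_comm, hN]
    refine Finset.sum_congr rfl fun x _ => Finset.sum_congr rfl fun y _ =>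
      Finset.sum_congr rfl fun z _ => ?_
    rw [S.rot y z x, S.swap y x z]
  have h5 : ∑ x, ∑ y, ∑ z, (S.T x y z).toNat = N + N + N := by
    rw [Finset.sum_congr rfl (fun x _ => Finset.sum_congr rfl (fun y _ =>
      Finset.sum_congr rfl (fun z _ => h1 x y z)))]
    simp only [Finset.sum_add_distrib]
    rw [h2, h3]
  rw [h5]
  exact ⟨N, by ring⟩

theorem Good.sts_mod {v : ℕ} (h : Good (Fin v) 1) (hv : 2 ≤ v) : v % 6 = 1 ∨ v % 6 = 3 := by
  have hp := h.parity (by simp; omega)
  obtain ⟨S, hS⟩ := h
  have hcod : ∀ x y, S.cod x y = if y = x then 0 else 1 := by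
    intro x y
    by_cases hy : y = x
    · rw [if_pos hy, hy, S.cod_self]
    · rw [if_neg hy]
      obtain ⟨a, ha, h1⟩ := hS x y (fun h => hy h.symm)
      omega
  have h3 := S.three_dvd
  have h4 : ∀ x, ∑ y, ∑ z, (S.T x y z).toNat = v - 1 := by
    intro x
    have h5 : ∀ y, ∑ z, (S.T x y z).toNat = if y = x then 0 else 1 := hcod x
    rw [Finset.sum_congr rfl (fun y _ => h5 y)]
    have h6 : ∀ y : Fin v, (if y = x then 0 else 1) + (if y = x then 1 else 0) = 1 := by
      intro y
      split_ifs <;> rfl
    have h7 := Finset.sum_congr (rfl : (univ : Finset (Fin v)) = univ) (fun y _ => h6 y)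
    rw [Finset.sum_add_distrib, Finset.sum_ite_eq' univ x] at h7
    simp only [mem_univ, if_true, sum_const, card_univ, Fintype.card_fin, smul_eq_mul,
      mul_one] at h7
    omega
  rw [Finset.sum_congr rfl (fun x _ => h4 x)] at h3
  simp only [sum_const, card_univ, Fintype.card_fin, smul_eq_mul] at h3
  simp only [Fintype.card_fin, one_mul] at hp
  rw [Nat.even_iff] at hp
  have h5 : v % 3 = 0 ∨ (v - 1) % 3 = 0 := by
    rcases (Nat.Prime.dvd_mul Nat.prime_three).1 h3 with h | h <;> omega
  omega

/-- the parameters of the sets of triples -/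
theorem good_iff {v lam : ℕ} (hv : 2 ≤ v) (hlam : 1 ≤ lam) : Good (Fin v) lam ↔
    (lam ≤ v + 2 ∧ Even (lam * (v - 1)) ∧ (lam = 1 ∨ lam = v + 1 → v % 6 = 1 ∨ v % 6 = 3)) := by
  constructor
  · intro h
    have h1 := h.le (by simpa using hv)
    have h2 := h.parity (by simp; omega)
    simp only [Fintype.card_fin] at h1 h2
    refine ⟨h1, h2, ?_⟩
    rintro (h3 | h3)
    · rw [h3] at h
      exact h.sts_mod hv
    · have h4 : Good (Fin v) 1 := h.compl (by simp; omega)
      exact h4.sts_mod hv
  · rintro ⟨h1, h2, h3⟩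
    rcases Nat.even_or_odd v with he | ho
    · have h4 : Even lam := by
        rcases Nat.even_mul.1 h2 with h | h
        · exact h
        · obtain ⟨a, ha⟩ := he
          obtain ⟨b, hb⟩ := h
          omega
      exact good_even v he lam h4 h1
    · by_cases c1 : lam = 1
      · rw [c1]
        exact sts (h3 (Or.inl c1))
      · by_cases c2 : lam = v + 1
        · have h4 : Good (Fin v) 1 := sts (h3 (Or.inr c2))
          exact h4.compl (by simp; omega)
        · by_cases c3 : lam = v + 2
          · have h4 : Good (Fin v) 0 := good_empty _ (Or.inl rfl)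
            exact h4.compl (by simp; omega)
          · exact good_odd v ho lam (by omega) (by omega)

/-- the existence of the designs -/
theorem vb_iff {v lam : ℕ} (hv : 2 ≤ v) (hlam : 1 ≤ lam) :
    (∃ 𝓑 : Finset (Multiset (Fin v)), IsVB v lam 𝓑) ↔
      (lam ≤ v + 2 ∧ Even (lam * (v - 1)) ∧ (lam = 1 ∨ lam = v + 1 → v % 6 = 1 ∨ v % 6 = 3)) := by
  rw [← good_iff hv hlam]
  exact ⟨fun ⟨_, h⟩ => good_of_vb h, vb_of_good⟩

end Pool.Agent.V8H5.VB
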