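import Pool.Agent.V8H5.VB.Core

set_option autoImplicit false
set_option linter.unusedSectionVars false

/-! # Balanced relations -/

namespace Pool.Agent.V8H5.VB

open Finset

variable {n : ℕ} [NeZero n]

theorem sum_val_lt {s : ℕ} (hs : s ≤ n) : ∑ y : ZMod n, (decide (y.val < s)).toNat = s := by
  have h1 : ∀ y : ZMod n, (decide (y.val < s)).toNat = if y.val < s then 1 else 0 := by
    intro y
    by_cases h : y.val < s <;> simp [h]
  rw [Finset.sum_congr rfl (fun y _ => h1 y), ← Finset.card_filter]
  conv_rhs => rw [← Finset.card_range s]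
  refine Finset.card_nbij' (fun y : ZMod n => y.val) (fun k => (k : ZMod n)) ?_ ?_ ?_ ?_
  · intro y hy
    have : y.val < s := by simpa using hy
    simpa using this
  · intro k hk
    have hk' : k < s := by simpa using hk
    have : ((k : ZMod n)).val = k := ZMod.val_natCast_of_lt (by omega)
    simpa [this] using hk'
  · intro y _
    simp
  · intro k hk
    have hk' : k < s := by simpa using hk
    exact ZMod.val_natCast_of_lt (by omega)

theorem sum_row {s : ℕ} (hs : s ≤ n) (x : ZMod n) :
    ∑ j : ZMod n, (decide ((j - x).val < s)).toNat = s := by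
  conv_rhs => rw [← sum_val_lt hs]
  exact Equiv.sum_comp (Equiv.subRight x) (fun y : ZMod n => (decide (y.val < s)).toNat)

theorem sum_column {s : ℕ} (hs : s ≤ n) (j : ZMod n) :
    ∑ x : ZMod n, (decide ((j - x).val < s)).toNat = s := by
  conv_rhs => rw [← sum_val_lt hs]
  exact Equiv.sum_comp (Equiv.subLeft j) (fun y : ZMod n => (decide (y.val < s)).toNat)

/-- the number of integers below `N` in a residue class -/
theorem count_bounds (j : ZMod n) (N : ℕ) :
    n * (∑ x ∈ range N, (decide ((x : ZMod n) = j)).toNat) < N + n ∧
      N < n * (∑ x ∈ range N, (decide ((x : ZMod n) = j)).toNat) + n := by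
  have hn : 0 < n := Nat.pos_of_ne_zero (NeZero.ne n)
  have h1 : ∑ x ∈ range N, (decide ((x : ZMod n) = j)).toNat =
      N.count (fun x => x ≡ j.val [MOD n]) := by
    rw [Nat.count_eq_card_filter_range, Finset.card_filter]
    refine Finset.sum_congr rfl fun x _ => ?_
    have h2 : ((x : ZMod n) = j) ↔ x ≡ j.val [MOD n] := by
      rw [← ZMod.natCast_eq_natCast_iff, ZMod.natCast_zmod_val]
    by_cases h : (x : ZMod n) = j
    · rw [if_pos (h2.1 h)]
      simp [h]
    · rw [if_neg (fun h' => h (h2.2 h'))]
      simp [h]
  rw [h1, Nat.count_modEq_card _ hn]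
  have h3 := Nat.div_add_mod N n
  have h4 := Nat.mod_lt N hn
  by_cases h : j.val % n < N % n
  · rw [if_pos h, mul_add]
    generalize n * (N / n) = q at h3 ⊢
    omega
  · rw [if_neg h, mul_add]
    generalize n * (N / n) = q at h3 ⊢
    omega

/-- the sum over consecutive intervals -/
theorem sum_intervals {s : ℕ} (hs : s ≤ n) (j : ZMod n) (m : ℕ) :
    ∑ i ∈ range m, (decide ((j - ((s * i : ℕ) : ZMod n)).val < s)).toNat =
      ∑ x ∈ range (s * m), (decide ((x : ZMod n) = j)).toNat := by
  induction m with
  | zero => simp
  | succ m ih =>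
    rw [Finset.sum_range_succ, ih, Nat.mul_succ, Finset.sum_range_add]
    congr 1
    set y : ZMod n := j - ((s * m : ℕ) : ZMod n) with hy
    have h1 : ∀ r ∈ range s, (decide (((s * m + r : ℕ) : ZMod n) = j)).toNat =
        if r = y.val then 1 else 0 := by
      intro r hr
      have hr' : r < s := by simpa using hr
      have h2 : (((s * m + r : ℕ) : ZMod n) = j) ↔ r = y.val := by
        constructor
        · intro h
          have h3 : y = (r : ZMod n) := by
            rw [hy, ← h]
            push_cast
            ring
          rw [h3, ZMod.val_natCast_of_lt (by omega)]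
        · intro h
          have h3 : (r : ZMod n) = y := by
            rw [h, ZMod.natCast_zmod_val]
          rw [Nat.cast_add, h3, hy]
          ring
      by_cases h : r = y.val
      · rw [if_pos h]
        simp [h2.2 h]
      · rw [if_neg h]
        have h4 : ¬ (((s * m + r : ℕ) : ZMod n) = j) := fun h' => h (h2.1 h')
        simp only [h4, decide_false, Bool.toNat_false]
    rw [Finset.sum_congr rfl h1, Finset.sum_ite_eq' (range s)]
    by_cases h : y.val < s
    · simp [h]
    · simp [h]

end Pool.Agent.V8H5.VB
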