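import Pool.Agent.V8H5.VB.Core

set_option autoImplicit false
set_option linter.unusedSectionVars false

/-! # Steiner triple systems -/

namespace Pool.Agent.V8H5.VB

open Finset

/-- a Steiner triple system from a totally symmetric idempotent operation -/
theorem good_of_op {V : Type} [Fintype V] [DecidableEq V] (m : V → V → V)
    (comm : ∀ x y, m x y = m y x) (idem : ∀ x, m x x = x) (canc : ∀ x y, m x (m x y) = y) :
    Good V 1 := by
  have hne : ∀ x y, x ≠ y → x ≠ m x y := by
    intro x y h h1
    apply h
    have h2 := canc x y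
    rw [← h1, idem] at h2
    exact h2
  refine ⟨⟨fun x y z => decide (x ≠ y ∧ z = m x y), ?_, ?_, ?_⟩, ?_⟩
  · intro x y z
    apply decide_eq_decide.2
    rw [comm x y]
    constructor <;> rintro ⟨h1, h2⟩ <;> exact ⟨h1.symm, h2⟩
  · intro x y z
    apply decide_eq_decide.2
    constructor
    · rintro ⟨h1, h2⟩
      refine ⟨?_, ?_⟩
      · rw [h2]
        exact hne x y h1
      · rw [h2, canc]
    · rintro ⟨h1, h2⟩
      refine ⟨?_, ?_⟩
      · rw [h2]
        exact hne x z h1
      · rw [h2, canc]
  · intro x y
    simp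
  · intro x y hxy
    refine ⟨0, by omega, ?_⟩
    have h1 : ∀ z, (decide (x ≠ y ∧ z = m x y)).toNat = if z = m x y then 1 else 0 := by
      intro z
      by_cases h : z = m x y
      · simp [h, hxy]
      · simp [h]
    simp only [TS.cod]
    rw [Finset.sum_congr rfl (fun z _ => h1 z), Finset.sum_ite_eq' univ]
    simp

theorem z3_ne1 : ∀ i : ZMod 3, i ≠ i + 1 := by decide

theorem z3_cases : ∀ i j : ZMod 3, i = j ∨ j = i + 1 ∨ i = j + 1 := by decide

theorem z3_add : ∀ i : ZMod 3, i + 1 + 1 + 1 = i := by decide

theorem z3_ne2 : ∀ i : ZMod 3, i ≠ i + 1 + 1 := by decide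

section Skolem

variable {Q : Type} [Fintype Q] [DecidableEq Q] (op D : Q → Q → Q) (L : Q → Bool) (σ : Q → Q)

/-- the third point of the block through `(x, i)` and `(y, i + 1)` -/
def up (x y : Q) (i : ZMod 3) : Option (Q × ZMod 3) :=
  if D x y = x then (if L x then some (x, i + 1 + 1) else none) else some (D x y, i)

/-- the third point of a block -/
def sk : Option (Q × ZMod 3) → Option (Q × ZMod 3) → Option (Q × ZMod 3)
  | none, none => none
  | none, some (x, i) => some (σ x, if L x then i + 1 + 1 else i + 1)
  | some (x, i), none => some (σ x, if L x then i + 1 + 1 else i + 1)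
  | some (x, i), some (y, j) =>
    if i = j then (if x = y then some (x, i) else some (op x y, i + 1))
    else if j = i + 1 then up D L x y i else up D L y x j

theorem good_skolem (h1 : ∀ x y, op x y = op y x) (h2 : ∀ x y, op x (D x y) = y)
    (h3 : ∀ x y, D x (op x y) = y) (h4 : ∀ x, op x x = if L x then x else σ x)
    (h5 : ∀ x, L (σ x) = !(L x)) (h6 : ∀ x, σ (σ x) = x) :
    Good (Option (Q × ZMod 3)) 1 := by
  have e1 : ∀ (x y : Q) (i : ZMod 3), sk op D L σ (some (x, i)) (some (y, i)) =
      if x = y then some (x, i) else some (op x y, i + 1) := by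
    intro x y i
    simp [sk]
  have e2 : ∀ (x y : Q) (i : ZMod 3), sk op D L σ (some (x, i)) (some (y, i + 1)) =
      up D L x y i := by
    intro x y i
    have := z3_ne1 i
    simp [sk]
  have e3 : ∀ (x y : Q) (i : ZMod 3), sk op D L σ (some (x, i + 1)) (some (y, i)) =
      up D L y x i := by
    intro x y i
    have a1 : i + 1 ≠ i := (z3_ne1 i).symm
    have a2 : i ≠ i + 1 + 1 := z3_ne2 i
    simp only [sk, if_neg a1, if_neg a2]
  have e4 : ∀ (x : Q) (i : ZMod 3), sk op D L σ none (some (x, i)) =
      some (σ x, if L x then i + 1 + 1 else i + 1) := fun x i => rfl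
  have e5 : ∀ (x : Q) (i : ZMod 3), sk op D L σ (some (x, i)) none =
      some (σ x, if L x then i + 1 + 1 else i + 1) := fun x i => rfl
  have d1 : ∀ x, L x = true → D x x = x := by
    intro x hx
    have := h3 x x
    rw [h4, hx, if_pos rfl] at this
    exact this
  have d2 : ∀ x, L x = false → D x (σ x) = x := by
    intro x hx
    have := h3 x x
    rw [h4, hx] at this
    simpa using this
  have d3 : ∀ x y, D x y = x → L x = true → y = x := by
    intro x y h hx
    have := h2 x y
    rw [h, h4, hx, if_pos rfl] at this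
    exact this.symm
  have d4 : ∀ x y, D x y = x → L x = false → y = σ x := by
    intro x y h hx
    have := h2 x y
    rw [h, h4, hx] at this
    simpa using this.symm
  have d5 : ∀ x y, D (D x y) y = x := by
    intro x y
    have := h3 (D x y) x
    rw [h1, h2] at this
    exact this
  apply good_of_op (sk op D L σ)
  · -- commutative
    rintro (_ | ⟨x, i⟩) (_ | ⟨y, j⟩)
    · rfl
    · rfl
    · rfl
    · rcases z3_cases i j with h | h | h
      · subst h
        rw [e1, e1, h1 x y]
        by_cases h : x = y
        · simp [h]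
        · rw [if_neg h, if_neg (fun h' => h h'.symm)]
      · subst h
        rw [e2, e3]
      · subst h
        rw [e2, e3]
  · rintro (_ | ⟨x, i⟩)
    · rfl
    · rw [e1, if_pos rfl]
  · rintro (_ | ⟨x, i⟩) (_ | ⟨y, j⟩)
    · rfl
    · rw [e4, e4, h5, h6]
      cases hL : L y
      · simp [z3_add]
      · simp [z3_add]
    · rw [e5]
      cases hL : L x
      · simp only [Bool.false_eq_true, if_false]
        rw [e2, up, d2 x hL, if_pos rfl, hL]
        simp
      · simp only [if_true]
        have a1 : sk op D L σ (some (x, i)) (some (σ x, i + 1 + 1)) =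
            sk op D L σ (some (x, i + 1 + 1 + 1)) (some (σ x, i + 1 + 1)) := by rw [z3_add]
        rw [a1, e3, up]
        have a2 : D (σ x) x = σ x := by
          have := d2 (σ x) (by rw [h5, hL]; rfl)
          rw [h6] at this
          exact this
        rw [a2, if_pos rfl, h5, hL]
        simp
    · rcases z3_cases i j with h | h | h
      · subst h
        rw [e1]
        by_cases h : x = y
        · rw [if_pos h, e1, if_pos rfl, h]
        · rw [if_neg h, e2, up, h3, if_neg (fun h' => h h'.symm)]
      · subst h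
        rw [e2, up]
        by_cases h : D x y = x
        · rw [if_pos h]
          cases hL : L x
          · simp only [Bool.false_eq_true, if_false]
            rw [e5, hL, d4 x y h hL]
            simp
          · simp only [if_true]
            have a1 : sk op D L σ (some (x, i)) (some (x, i + 1 + 1)) =
                sk op D L σ (some (x, i + 1 + 1 + 1)) (some (x, i + 1 + 1)) := by rw [z3_add]
            rw [a1, e3, up, d1 x hL, if_pos rfl, hL, if_pos rfl, d3 x y h hL, z3_add]
        · rw [if_neg h, e1, if_neg (fun h' => h h'.symm), h2]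
      · subst h
        rw [e3, up]
        by_cases h : D y x = y
        · rw [if_pos h]
          cases hL : L y
          · simp only [Bool.false_eq_true, if_false]
            have a1 := d4 y x h hL
            rw [e5, a1, h5, hL, h6]
            simp [z3_add]
          · simp only [if_true]
            rw [e2, up, d3 y x h hL, d1 y hL, if_pos rfl, hL, if_pos rfl, z3_add]
        · rw [if_neg h, e3, up, d5 y x, if_neg (fun h' => h h'.symm)]

/-- without a point at infinity, when the operation is idempotent -/
theorem good_bose (h1 : ∀ x y, op x y = op y x) (h2 : ∀ x y, op x (D x y) = y)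
    (h3 : ∀ x y, D x (op x y) = y) (h4 : ∀ x, op x x = x) :
    Good (Q × ZMod 3) 1 := by
  have d1 : ∀ x, D x x = x := by
    intro x
    have := h3 x x
    rw [h4] at this
    exact this
  have d3 : ∀ x y, D x y = x → y = x := by
    intro x y h
    have := h2 x y
    rw [h, h4] at this
    exact this.symm
  have d5 : ∀ x y, D (D x y) y = x := by
    intro x y
    have := h3 (D x y) x
    rw [h1, h2] at this
    exact this
  let m : Q × ZMod 3 → Q × ZMod 3 → Q × ZMod 3 := fun P R =>
    if P.2 = R.2 then (if P.1 = R.1 then P else (op P.1 R.1, P.2 + 1))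
    else if R.2 = P.2 + 1 then (if D P.1 R.1 = P.1 then (P.1, P.2 + 1 + 1) else (D P.1 R.1, P.2))
    else (if D R.1 P.1 = R.1 then (R.1, R.2 + 1 + 1) else (D R.1 P.1, R.2))
  have e1 : ∀ (x y : Q) (i : ZMod 3), m (x, i) (y, i) =
      if x = y then (x, i) else (op x y, i + 1) := by
    intro x y i
    simp [m]
  have e2 : ∀ (x y : Q) (i : ZMod 3), m (x, i) (y, i + 1) =
      if D x y = x then (x, i + 1 + 1) else (D x y, i) := by
    intro x y i
    simp [m]
  have e3 : ∀ (x y : Q) (i : ZMod 3), m (x, i + 1) (y, i) =
      if D y x = y then (y, i + 1 + 1) else (D y x, i) := by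
    intro x y i
    have a1 : i + 1 ≠ i := (z3_ne1 i).symm
    have a2 : i ≠ i + 1 + 1 := z3_ne2 i
    simp only [m, if_neg a1, if_neg a2]
  apply good_of_op m
  · rintro ⟨x, i⟩ ⟨y, j⟩
    rcases z3_cases i j with h | h | h
    · subst h
      rw [e1, e1, h1 x y]
      by_cases h : x = y
      · simp [h]
      · rw [if_neg h, if_neg (fun h' => h h'.symm)]
    · subst h
      rw [e2, e3]
    · subst h
      rw [e2, e3]
  · rintro ⟨x, i⟩
    rw [e1, if_pos rfl]
  · rintro ⟨x, i⟩ ⟨y, j⟩
    rcases z3_cases i j with h | h | h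
    · subst h
      rw [e1]
      by_cases h : x = y
      · rw [if_pos h, e1, if_pos rfl, h]
      · rw [if_neg h, e2, h3, if_neg (fun h' => h h'.symm)]
    · subst h
      rw [e2]
      by_cases h : D x y = x
      · rw [if_pos h]
        have a1 : m (x, i) (x, i + 1 + 1) = m (x, i + 1 + 1 + 1) (x, i + 1 + 1) := by rw [z3_add]
        rw [a1, e3, d1, if_pos rfl, d3 x y h, z3_add]
      · rw [if_neg h, e1, if_neg (fun h' => h h'.symm), h2]
    · subst h
      rw [e3]
      by_cases h : D y x = y
      · rw [if_pos h, e2, d3 y x h, d1, if_pos rfl, z3_add]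
      · rw [if_neg h, e3, d5 y x, if_neg (fun h' => h h'.symm)]

end Skolem

/-- Bose -/
theorem sts_bose (t : ℕ) : Good (Fin (6 * t + 3)) 1 := by
  have h2 : (2 : ZMod (2 * t + 1)) * ((t + 1 : ℕ) : ZMod (2 * t + 1)) = 1 := by
    have h3 : ((2 * t + 1 : ℕ) : ZMod (2 * t + 1)) = 0 := ZMod.natCast_self _
    push_cast at h3 ⊢
    linear_combination h3
  have key := good_bose (Q := ZMod (2 * t + 1))
    (fun x y => (x + y) * ((t + 1 : ℕ) : ZMod (2 * t + 1))) (fun x y => 2 * y - x) ?_ ?_ ?_ ?_
  · exact key.of_card (by simp [ZMod.card]; omega)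
  · intro x y
    ring
  · intro x y
    linear_combination y * h2
  · intro x y
    linear_combination (x + y) * h2
  · intro x
    linear_combination x * h2

/-- Skolem -/
theorem sts_skolem (t : ℕ) (ht : 0 < t) : Good (Fin (6 * t + 1)) 1 := by
  have : NeZero (2 * t) := ⟨by omega⟩
  let hf : ZMod (2 * t) → ZMod (2 * t) := fun z =>
    if z.val % 2 = 0 then ((z.val / 2 : ℕ) : ZMod (2 * t)) else ((z.val / 2 + t : ℕ) : ZMod (2 * t))
  let db : ZMod (2 * t) → ZMod (2 * t) := fun y =>
    if y.val < t then ((2 * y.val : ℕ) : ZMod (2 * t)) else ((2 * y.val + 1 : ℕ) : ZMod (2 * t))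
  have hmod : ∀ a : ℕ, 2 * t ≤ a → a < 4 * t → a % (2 * t) = a - 2 * t := by
    intro a h1 h2
    rw [Nat.mod_eq_sub_mod h1, Nat.mod_eq_of_lt (by omega)]
  have hlt : ∀ z : ZMod (2 * t), z.val < 2 * t := fun z => ZMod.val_lt z
  have vdb1 : ∀ y : ZMod (2 * t), y.val < t → (db y).val = 2 * y.val := by
    intro y hy
    simp only [db, if_pos hy]
    rw [ZMod.val_natCast, Nat.mod_eq_of_lt (by omega)]
  have vdb2 : ∀ y : ZMod (2 * t), ¬ y.val < t → (db y).val = 2 * y.val + 1 - 2 * t := by
    intro y hy
    have := hlt y
    simp only [db, if_neg hy]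
    rw [ZMod.val_natCast, hmod _ (by omega) (by omega)]
  have vhf1 : ∀ z : ZMod (2 * t), z.val % 2 = 0 → (hf z).val = z.val / 2 := by
    intro z hz
    have := hlt z
    simp only [hf, if_pos hz]
    rw [ZMod.val_natCast, Nat.mod_eq_of_lt (by omega)]
  have vhf2 : ∀ z : ZMod (2 * t), ¬ z.val % 2 = 0 → (hf z).val = z.val / 2 + t := by
    intro z hz
    have := hlt z
    simp only [hf, if_neg hz]
    rw [ZMod.val_natCast, Nat.mod_eq_of_lt (by omega)]
  have hd : ∀ y, hf (db y) = y := by
    intro y
    apply ZMod.val_injective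
    have := hlt y
    by_cases hy : y.val < t
    · have h1 := vdb1 y hy
      rw [vhf1 _ (by omega), h1]
      omega
    · have h1 := vdb2 y hy
      rw [vhf2 _ (by omega), h1]
      omega
  have dh : ∀ z, db (hf z) = z := by
    intro z
    apply ZMod.val_injective
    have := hlt z
    by_cases hz : z.val % 2 = 0
    · have h1 := vhf1 z hz
      rw [vdb1 _ (by omega), h1]
      omega
    · have h1 := vhf2 z hz
      rw [vdb2 _ (by omega), h1]
      omega
  have vt : ((t : ℕ) : ZMod (2 * t)).val = t := ZMod.val_natCast_of_lt (by omega)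
  have vadd : ∀ x y : ZMod (2 * t), (x + y).val = (x.val + y.val) % (2 * t) := ZMod.val_add
  have vs1 : ∀ x : ZMod (2 * t), x.val < t → (x + (t : ℕ)).val = x.val + t := by
    intro x hx
    rw [vadd, vt, Nat.mod_eq_of_lt (by omega)]
  have vs2 : ∀ x : ZMod (2 * t), ¬ x.val < t → (x + (t : ℕ)).val = x.val - t := by
    intro x hx
    have := hlt x
    rw [vadd, vt, hmod _ (by omega) (by omega)]
    omega
  have key := good_skolem (Q := ZMod (2 * t)) (fun x y => hf (x + y)) (fun x y => db y - x)
    (fun x => decide (x.val < t)) (fun x => x + (t : ℕ)) ?_ ?_ ?_ ?_ ?_ ?_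
  · exact key.of_card (by simp [ZMod.card]; omega)
  · intro x y
    show hf (x + y) = hf (y + x)
    rw [add_comm]
  · intro x y
    show hf (x + (db y - x)) = y
    rw [add_sub_cancel, hd]
  · intro x y
    show db (hf (x + y)) - x = y
    rw [dh, add_sub_cancel_left]
  · intro x
    have hx := hlt x
    apply ZMod.val_injective
    by_cases h : x.val < t
    · have h1 : (x + x).val = 2 * x.val := by
        rw [vadd, Nat.mod_eq_of_lt (by omega)]
        omega
      simp only [decide_eq_true_eq, if_pos h]
      rw [vhf1 _ (by omega), h1]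
      omega
    · have h1 : (x + x).val = 2 * x.val - 2 * t := by
        rw [vadd, hmod _ (by omega) (by omega)]
        omega
      simp only [decide_eq_true_eq, if_neg h]
      rw [vhf1 _ (by omega), h1, vs2 x h]
      omega
  · intro x
    have hx := hlt x
    by_cases h : x.val < t
    · have h1 := vs1 x h
      have h2 : ¬ (x + (t : ℕ)).val < t := by omega
      simp [h, h2]
    · have h1 := vs2 x h
      have h2 : (x + (t : ℕ)).val < t := by omega
      simp [h, h2]
  · intro x
    show x + (t : ℕ) + (t : ℕ) = x
    have h3 : ((2 * t : ℕ) : ZMod (2 * t)) = 0 := ZMod.natCast_self _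
    push_cast at h3
    linear_combination h3

/-- Steiner triple systems of all orders `1, 3 mod 6` -/
theorem sts {v : ℕ} (hv : v % 6 = 1 ∨ v % 6 = 3) : Good (Fin v) 1 := by
  rcases hv with h | h
  · rcases Nat.eq_zero_or_pos (v / 6) with h0 | h0
    · have h1 : v = 1 := by omega
      subst h1
      refine ⟨⟨fun _ _ _ => false, fun _ _ _ => rfl, fun _ _ _ => rfl, fun _ _ => rfl⟩,
        fun x y hxy => absurd (Subsingleton.elim x y) hxy⟩
    · have h1 : v = 6 * (v / 6) + 1 := by omega
      rw [h1]
      exact sts_skolem _ h0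
  · have h1 : v = 6 * (v / 6) + 3 := by omega
    rw [h1]
    exact sts_bose _

end Pool.Agent.V8H5.VB
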